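import Pool.Agent.Y811.IR.Stm

/-!
Project IR (helper811), job IR-END: no renormalization of period greater than `N`.
-/

set_option autoImplicit false

open Filter Topology Metric Set

namespace Pool.Agent.Y921.IR2

open Pool.Agent.Y811.IR

theorem hasDerivAt_q (c z : ℂ) : HasDerivAt (q c) (2 * z) z := by
  have h : HasDerivAt (fun z : ℂ => z ^ 2 + c) (2 * z) z := by
    simpa using (hasDerivAt_pow 2 z).add_const c
  exact h

theorem hasDerivAt_it (c : ℂ) (n : ℕ) (z : ℂ) :
    HasDerivAt ((q c)^[n]) (∏ j ∈ Finset.range n, 2 * (q c)^[j] z) z := by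
  induction n with
  | zero => simpa using hasDerivAt_id z
  | succ n ih =>
    rw [Function.iterate_succ', Finset.prod_range_succ, mul_comm]
    exact (hasDerivAt_q c _).comp z ih

theorem deriv_it (c : ℂ) (n : ℕ) :
    deriv ((q c)^[n]) = fun z => ∏ j ∈ Finset.range n, 2 * (q c)^[j] z := by
  funext z
  exact (hasDerivAt_it c n z).deriv

theorem t_END (h2 : S_SURJ) : S_END := by
  intro c N b hb h0 p hp U hU hcrit hdd
  have hind : ∀ i : ℕ, Attr c N ((q c)^[i] b) ∧
      (q c)^[i] '' Imm ((q c)^[N]) b = Imm ((q c)^[N]) ((q c)^[i] b) := by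
    intro i
    induction i with
    | zero => exact ⟨hb, by simp⟩
    | succ i ih =>
      obtain ⟨h3, h4, -⟩ := h2 c N _ ih.1
      rw [Function.iterate_succ_apply']
      refine ⟨h3, ?_⟩
      rw [Function.iterate_succ', image_comp, ih.2, h4]
  have h5 := (hind N).2
  rw [hb.2.1] at h5
  rw [← h5] at h0
  obtain ⟨w, hw, hw0⟩ := h0
  by_cases hwz : w = 0
  · subst hwz
    apply hdd
    rw [deriv_it]
    have hN1 : 1 ≤ N := hb.1
    have hsplit : (fun z : ℂ => ∏ j ∈ Finset.range p, 2 * (q c)^[j] z) =
        fun z => (2 * z) * ((2 * (q c)^[N] z) *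
          ∏ j ∈ (((Finset.range p).erase 0).erase N), 2 * (q c)^[j] z) := by
      funext z
      rw [Finset.mul_prod_erase ((Finset.range p).erase 0) (fun j => 2 * (q c)^[j] z)
        (Finset.mem_erase.2 ⟨by omega, Finset.mem_range.2 hp⟩)]
      rw [← Finset.mul_prod_erase (Finset.range p) (fun j => 2 * (q c)^[j] z)
        (Finset.mem_range.2 (by omega : 0 < p))]
      rfl
    rw [hsplit]
    have hu : HasDerivAt (fun z : ℂ => 2 * z) 2 0 := by
      simpa using (hasDerivAt_id (0 : ℂ)).const_mul 2
    have hv : DifferentiableAt ℂ (fun z : ℂ => (2 * (q c)^[N] z) *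
          ∏ j ∈ (((Finset.range p).erase 0).erase N), 2 * (q c)^[j] z) 0 := by
      refine DifferentiableAt.mul ?_ ?_
      · exact ((hasDerivAt_it c N 0).differentiableAt).const_mul 2
      · refine DifferentiableAt.fun_finsetProd fun j _ => ?_
        exact ((hasDerivAt_it c j 0).differentiableAt).const_mul 2
    have h6 := hu.mul hv.hasDerivAt
    have h7 := h6.deriv
    simp only [hw0, mul_zero, zero_mul, add_zero] at h7
    exact h7
  · apply hwz
    apply hcrit w (hU hw)
    rw [deriv_it]
    exact Finset.prod_eq_zero (Finset.mem_range.2 hp) (by rw [hw0, mul_zero])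

end Pool.Agent.Y921.IR2
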